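import Pool.Agent.Lib.MP_e841a3_pr.NearBoth

open MeasureTheory ProbabilityTheory Real InformationTheory
open Pool.Agent.Lib.MP_e841a3_pr
open scoped ENNReal NNReal

namespace Pool.Agent.Results.MP_e841a3_pr.NearEntropy

/-- Nearly Gaussian laws with bounded fourth moment for which the entropy inequality fails. -/
theorem result (M : ℝ) (hM : 3 < M) (ε : ℝ) (hε : 0 < ε) (n : ℕ) (hn : 1 ≤ n) (C : ℝ)
    (hC : C < n) :
    ∃ (Ω : Type) (_ : MeasurableSpace Ω) (P : Measure Ω) (_ : IsProbabilityMeasure P)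
      (X : ℕ → Ω → ℝ), (∀ i, Measurable (X i)) ∧ iIndepFun X P ∧
      (∀ i, IdentDistrib (X i) (X 0) P P) ∧ Integrable (fun ω => X 0 ω ^ 4) P ∧
      ∫ ω, X 0 ω ∂P = 0 ∧ ∫ ω, X 0 ω ^ 2 ∂P = 1 ∧ ∫ ω, X 0 ω ^ 4 ∂P ≤ M ∧
      relFisher (P.map (X 0)) ≤ ENNReal.ofReal ε ∧
      klDiv (P.map (X 0)) (gaussianReal 0 1) ≤ ENNReal.ofReal ε ∧
      klDiv (P.map (fun ω => (∑ i ∈ Finset.range n, X i ω) / √n)) (gaussianReal 0 1) ≠ ⊤ ∧
      ENNReal.ofReal (C / n) * klDiv (P.map (X 0)) (gaussianReal 0 1) <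
        klDiv (P.map (fun ω => (∑ i ∈ Finset.range n, X i ω) / √n)) (gaussianReal 0 1) := by
  obtain ⟨Ω, mΩ, P, hP, X, h1, h2, h3, h4, h5, h6, h7, h8, h9, -, ha, -, hb⟩ :=
    near_both M hM ε hε n hn C hC
  exact ⟨Ω, mΩ, P, hP, X, h1, h2, h3, h4, h5, h6, h7, h8, h9, ha, hb⟩

end Pool.Agent.Results.MP_e841a3_pr.NearEntropy
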