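import Pool.Agent.Lib.MP_e841a3_pr.Family

open MeasureTheory ProbabilityTheory Real
open Pool.Agent.Lib.MP_e841a3_pr
open scoped ENNReal NNReal

namespace Pool.Agent.Results.MP_e841a3_pr.Q1Fisher

/-- For every `M > 1`, every `n ≥ 1` and every `C < n` there are i.i.d. centred unit-variance
random variables with fourth moment at most `M` and finite relative Fisher informations such that
`J(f_n ‖ φ) > (C / n) J(f_1 ‖ φ)`. -/
theorem result (M : ℝ) (hM : 1 < M) (n : ℕ) (hn : 1 ≤ n) (C : ℝ) (hC : C < n) :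
    ∃ (Ω : Type) (_ : MeasurableSpace Ω) (P : Measure Ω) (_ : IsProbabilityMeasure P)
      (X : ℕ → Ω → ℝ), (∀ i, Measurable (X i)) ∧ iIndepFun X P ∧
      (∀ i, IdentDistrib (X i) (X 0) P P) ∧ Integrable (fun ω => X 0 ω ^ 4) P ∧
      ∫ ω, X 0 ω ∂P = 0 ∧ ∫ ω, X 0 ω ^ 2 ∂P = 1 ∧ ∫ ω, X 0 ω ^ 4 ∂P ≤ M ∧
      relFisher (P.map (X 0)) ≠ ⊤ ∧
      relFisher (P.map (fun ω => (∑ i ∈ Finset.range n, X i ω) / √n)) ≠ ⊤ ∧
      ENNReal.ofReal (C / n) * relFisher (P.map (X 0)) <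
        relFisher (P.map (fun ω => (∑ i ∈ Finset.range n, X i ω) / √n)) := by
  have hn0 : (0 : ℝ) < n := by exact_mod_cast hn
  set θ : ℝ := max (C / n) 0 with hθ
  have hθ0 : 0 ≤ θ := le_max_right _ _
  have hθ1 : θ < 1 := max_lt ((div_lt_one hn0).2 hC) one_pos
  set η : ℝ := (1 - θ) / 2 with hη
  have hη0 : 0 < η := by rw [hη]; linarith
  set W : ℝ := 8 * π ^ 2 * n + (n ^ 2 + 1) / η with hW
  have hW0 : 0 < W := by have := pi_pos; positivity
  set w : ℝ := min (min (1 / 2) ((M - 1) / 4)) (η / (W + 1)) with hw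
  have hw0 : 0 < w := lt_min (lt_min (by norm_num) (by linarith)) (by positivity)
  have hw1 : w ≤ 1 / 2 := (min_le_left _ _).trans (min_le_left _ _)
  have hw2 : w ≤ (M - 1) / 4 := (min_le_left _ _).trans (min_le_right _ _)
  have hw3 : w ≤ η / (W + 1) := min_le_right _ _
  set v : ℝ≥0 := ⟨w, hw0.le⟩ with hv
  have hvw : (v : ℝ) = w := rfl
  have hv0 : v ≠ 0 := by
    intro h
    rw [h] at hvw
    simp at hvw
    linarith
  have hv2 : (v : ℝ) ≤ 1 / 2 := hw1
  obtain ⟨Ω, mΩ, P, hP, X, hm, hind, hid, hi4, h1, h2, h4, hl1, hln⟩ := exists_family hv2 n hn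
  refine ⟨Ω, mΩ, P, hP, X, hm, hind, hid, hi4, h1, h2, by linarith, ?_, ?_, ?_⟩
  · rw [hl1]
    exact ne_top_of_le_ne_top ENNReal.ofReal_ne_top (fisher_one_le hv0 hv2)
  · rw [hln]
    exact ne_top_of_le_ne_top ENNReal.ofReal_ne_top (fisher_mix_le _ hv0)
  · rw [hl1, hln]
    refine lt_of_lt_of_le ?_ (fisher_sum_ge hv0 hv2 hn hη0)
    have hle : ENNReal.ofReal (C / n) * relFisher (mix (sg v) v) ≤
        ENNReal.ofReal (θ * (1 / v)) := by
      rw [ENNReal.ofReal_mul hθ0]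
      exact mul_le_mul' (ENNReal.ofReal_le_ofReal (le_max_left _ _)) (fisher_one_le hv0 hv2)
    refine lt_of_le_of_lt hle ?_
    have key : W + 1 ≤ η / w := by
      rw [le_div_iff₀ hw0]
      rw [le_div_iff₀ (by positivity)] at hw3
      linarith
    have e : (1 - η) / w = θ * (1 / w) + η / w := by
      have : θ = 1 - 2 * η := by rw [hη]; ring
      rw [this]
      field_simp
      ring
    have hpos : 0 ≤ θ * (1 / w) := by positivity
    rw [hvw, ← hW, ENNReal.ofReal_lt_ofReal_iff (by linarith)]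
    linarith

end Pool.Agent.Results.MP_e841a3_pr.Q1Fisher
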