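import Pool.Agent.Lib.MP_e841a3_pr.Family

open MeasureTheory ProbabilityTheory Real InformationTheory
open Pool.Agent.Lib.MP_e841a3_pr
open scoped ENNReal NNReal

namespace Pool.Agent.Results.MP_e841a3_pr.Q2Entropy

/-- For every `M > 1`, every `n ≥ 1` and every `C < n` there are i.i.d. centred unit-variance
random variables with fourth moment at most `M` and finite relative entropies such that
`D(f_n ‖ φ) > (C / n) D(f_1 ‖ φ)`. -/
theorem result (M : ℝ) (hM : 1 < M) (n : ℕ) (hn : 1 ≤ n) (C : ℝ) (hC : C < n) :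
    ∃ (Ω : Type) (_ : MeasurableSpace Ω) (P : Measure Ω) (_ : IsProbabilityMeasure P)
      (X : ℕ → Ω → ℝ), (∀ i, Measurable (X i)) ∧ iIndepFun X P ∧
      (∀ i, IdentDistrib (X i) (X 0) P P) ∧ Integrable (fun ω => X 0 ω ^ 4) P ∧
      ∫ ω, X 0 ω ∂P = 0 ∧ ∫ ω, X 0 ω ^ 2 ∂P = 1 ∧ ∫ ω, X 0 ω ^ 4 ∂P ≤ M ∧
      klDiv (P.map (X 0)) (gaussianReal 0 1) ≠ ⊤ ∧
      klDiv (P.map (fun ω => (∑ i ∈ Finset.range n, X i ω) / √n)) (gaussianReal 0 1) ≠ ⊤ ∧
      ENNReal.ofReal (C / n) * klDiv (P.map (X 0)) (gaussianReal 0 1) <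
        klDiv (P.map (fun ω => (∑ i ∈ Finset.range n, X i ω) / √n)) (gaussianReal 0 1) := by
  have hn0 : (0 : ℝ) < n := by exact_mod_cast hn
  set θ : ℝ := max (C / n) 0 with hθ
  have hθ0 : 0 ≤ θ := le_max_right _ _
  have hθ1 : θ < 1 := max_lt ((div_lt_one hn0).2 hC) one_pos
  set η : ℝ := (1 - θ) / 2 with hη
  have hη0 : 0 < η := by rw [hη]; linarith
  have hη1 : η ≤ 1 / 2 := by rw [hη]; linarith
  set K : ℝ := 1 / η with hK
  have hK1 : 1 ≤ K := by rw [hK, le_div_iff₀ hη0]; linarith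
  have hK2 : 1 / K ^ 2 ≤ η := by
    have : 1 / K ^ 2 = η * η := by rw [hK]; field_simp
    nlinarith
  set N : ℝ := ((Fintype.card (Fin n → Bool) : ℕ) : ℝ) with hN
  have hN1 : 1 ≤ N := by
    rw [hN]
    exact_mod_cast Fintype.card_pos
  set b : ℝ := log (2 * K * N) with hb
  have hb0 : 0 ≤ b := log_nonneg (by nlinarith)
  set l : ℝ := (b + 3) / η + 1 with hl
  set w : ℝ := min (min (1 / 2) ((M - 1) / 4)) (exp (-l) ^ 2) with hw
  have hw0 : 0 < w := lt_min (lt_min (by norm_num) (by linarith)) (by positivity)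
  have hw1 : w ≤ 1 / 2 := (min_le_left _ _).trans (min_le_left _ _)
  have hw2 : w ≤ (M - 1) / 4 := (min_le_left _ _).trans (min_le_right _ _)
  have hw3 : w ≤ exp (-l) ^ 2 := min_le_right _ _
  set v : ℝ≥0 := ⟨w, hw0.le⟩ with hv
  have hvw : (v : ℝ) = w := rfl
  have hv0 : v ≠ 0 := by
    intro h
    rw [h] at hvw
    simp at hvw
    linarith
  have hv2 : (v : ℝ) ≤ 1 / 2 := hw1
  have hs0 : 0 < √w := Real.sqrt_pos.2 hw0
  have hs1 : √w ≤ exp (-l) := Real.sqrt_le_iff.2 ⟨(exp_pos _).le, hw3⟩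
  have hs2 : log √w ≤ -l := by
    rw [log_le_iff_le_exp hs0]; exact hs1
  have hlog : log (2 * K * N * √w) = b + log √w := log_mul (by positivity) hs0.ne'
  have hlb : b + 3 ≤ η * (-log √w) := by
    have h1 : η * l = b + 3 + η := by rw [hl]; field_simp
    nlinarith
  have hL0 : 0 ≤ -log √w := by
    by_contra h
    nlinarith
  have hbL : b + log √w ≤ 0 := by nlinarith
  have hsmall : 2 * K * N * √w ≤ 1 := by
    rw [← hlog, log_nonpos_iff (by positivity)] at hbL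
    exact hbL
  obtain ⟨Ω, mΩ, P, hP, X, hm, hind, hid, hi4, h1, h2, h4, hl1, hln⟩ := exists_family hv2 n hn
  have hup := kl_mix_le (sg v) 1 zero_le_one hv0 hv2 fun i => by
    rw [sg_sq hv2]
    linarith
  refine ⟨Ω, mΩ, P, hP, X, hm, hind, hid, hi4, h1, h2, by linarith, ?_, ?_, ?_⟩
  · rw [hl1]
    exact ne_top_of_le_ne_top ENNReal.ofReal_ne_top hup
  · rw [hln]
    exact ne_top_of_le_ne_top ENNReal.ofReal_ne_top
      (kl_mix_le (sm v n) ((n : ℝ) ^ 2) (sq_nonneg _) hv0 hv2 (sm_sq_le hv2 hn))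
  · rw [hl1, hln]
    refine lt_of_lt_of_le ?_ (kl_mix_ge (sm v n) K (by linarith) hv0 hsmall)
    have hle : ENNReal.ofReal (C / n) * klDiv (mix (sg v) v) (gaussianReal 0 1) ≤
        ENNReal.ofReal (θ * (1 + 1 - log √v)) := by
      rw [ENNReal.ofReal_mul hθ0]
      exact mul_le_mul' (ENNReal.ofReal_le_ofReal (le_max_left _ _)) hup
    refine lt_of_le_of_lt hle ?_
    rw [hvw, ← hN, hlog]
    set L := -log √w with hL
    have hL' : log √w = -L := by rw [hL]; ring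
    rw [hL']
    have hθη : θ = 1 - 2 * η := by rw [hη]; ring
    have k1 : (1 - η) * (L - b) ≤ (1 - 1 / K ^ 2) * -(b + -L) := by
      have : -(b + -L) = L - b := by ring
      rw [this]
      gcongr
      linarith
    have k2 : θ * (1 + 1 - -L) < (1 - η) * (L - b) - 1 := by
      rw [hθη]
      nlinarith
    have k3 : 0 ≤ θ * (1 + 1 - -L) := by
      apply mul_nonneg hθ0
      linarith
    rw [ENNReal.ofReal_lt_ofReal_iff (by linarith)]
    linarith

end Pool.Agent.Results.MP_e841a3_pr.Q2Entropy
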